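import Pool.Agent.R460.GH.Conv

/-!
# Goldbach pairs with a small prime in the residue classes of EVERY modulus `q ≤ x ^ (2 / 3 - ρ)`: asymptotic formulas

For every modulus `q ≤ x ^ (2 / 3 - ρ)`, without any exceptional moduli, and every residue class `a` modulo `q`
with `gcd(a, q) ≤ (log x)^T`, all but at most `x / (q (log x)^B)` of the even integers `m ≤ x`, `m ≡ a (mod q)`,
have in every window `(y₁, y₂]` of a length of at least `m / (log m)^A`, in particular in `(0, m / (log m)^A]`, the
number of primes `p` with `m - p` prime which Hardy and Littlewood predict, up to the factor `1 ± ε`.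

Definition used (in `Pool.Agent.H560R3.GB`): `sing m = 2 C₂ ∏_{p ∣ m, p > 2} (p - 1) / (p - 2)`, the singular series,
where `C₂ = ∏_{p > 2} (1 - 1 / (p - 1) ^ 2)` is the twin prime constant.

Proof (`R460/GH`). Let `Z = N ^ (1 / 3 + κ)` and let `r(n) = 1` if `n` has no prime factor up to `Z`, and `0` otherwise.
Since the numbers with no prime factor up to `Z` are primes or products of two primes, the indicator function of
the primes is `r(n) - (1 / 2) ∑_{p ∣ n, Z < p ≤ N / Z} r(n / p)`, up to few `n`. Both terms are sums of type I of the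
level `N ^ (2 / 3)` plus bilinear sums in which one variable is between `N ^ κ` and `N ^ (1 / 3 + κ)`. For
`q ≤ N ^ (2 / 3 - ρ)` the mean square of the former over ALL characters modulo `q`, or equivalently over all
fractions `j / q`, is estimated in the whole range by counting the solutions of `|m j / q + m η - a / r|` small
(`GH/Ka - Kd`); the latter are small in mean square over all characters but few bad ones near the fractions
with small denominators, and over all characters elsewhere. So the same is true of the primes. The bad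
characters of a large conductor contribute sums over shifted classes, which are small if `gcd(a, q)` is small:
no zero-free region for the characters modulo `q` is needed, and there are no exceptional moduli.
-/

set_option autoImplicit false

namespace Pool.Agent.Results.MP_bae66e_nt.AsymptoticEveryModulus

open Finset
open Pool.Agent.H560R3.GB (sing)

/-- The number of primes `p` with `y₁ < p ≤ y₂` such that `m - p` is a prime. -/
def cnt (m y₁ y₂ : ℕ) : ℕ := ((Ioc y₁ y₂).filter (fun p => p.Prime ∧ (m - p).Prime)).card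

/-- (1) There is a prime `p ≤ m / log ^ A m` such that `m - p` is a prime (thus `g(m) ≤ m / log ^ A m`
in the notation of the problem); (2) in every window `(y₁, y₂] ⊆ (0, m]` of a length of at least
`m / log ^ A m` the number of primes `p` such that `m - p` is a prime agrees with
`sing m * (y₂ - y₁) / log ^ 2 m` up to a relative error of at most `ε`. -/
def Holds (ε : ℝ) (A m : ℕ) : Prop :=
  (∃ p : ℕ, p.Prime ∧ (m - p).Prime ∧ (p : ℝ) ≤ m / Real.log m ^ A) ∧
  ∀ y₁ y₂ : ℕ, y₁ < y₂ → y₂ ≤ m → (m : ℝ) / Real.log m ^ A ≤ (y₂ : ℝ) - y₁ →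
    |(cnt m y₁ y₂ : ℝ) - sing m * ((y₂ : ℝ) - y₁) / Real.log m ^ 2| ≤
      ε * (sing m * ((y₂ : ℝ) - y₁) / Real.log m ^ 2)

/-- The even integers `0 < m ≤ x` with `m ≡ a (mod q)` for which `Holds ε A m` is false. -/
def exceptional (ε : ℝ) (A : ℕ) (x : ℝ) (q : ℕ) (a : ℤ) : Set ℕ :=
  {m : ℕ | 0 < m ∧ (m : ℝ) ≤ x ∧ 2 ∣ m ∧ (m : ℤ) ≡ a [ZMOD q] ∧ ¬ Holds ε A m}

theorem holds_of (ε : ℝ) (hε : 0 < ε) (A : ℕ) : ∃ m₀ : ℕ, ∀ m : ℕ, m₀ ≤ m → 2 ∣ m →
    Pool.Agent.W93.PG.WinP (min ε (1 / 2)) (A + 1) m → Holds ε A m := by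
  obtain ⟨n1, hn1⟩ := Filter.eventually_atTop.1
    (Pool.Agent.Y614.GJ.Core.ev_log (A + 1) (s := 1) one_pos 4)
  refine ⟨n1 + 3, fun m hm _ hw => ?_⟩
  obtain ⟨hL4, hLp⟩ := hn1 m (by omega)
  rw [Real.rpow_one] at hLp
  have hL1 : 1 ≤ Real.log m := by linarith
  have hL0 : 0 < Real.log m := by linarith
  have hs := Pool.Agent.R460.GS.one_le_sing m
  have hm0 : (0 : ℝ) < m := by exact_mod_cast (by omega : 0 < m)
  have hle : (m : ℝ) / Real.log m ^ (A + 1) ≤ m / Real.log m ^ A :=
    div_le_div_of_nonneg_left hm0.le (by positivity) (pow_le_pow_right₀ hL1 (Nat.le_succ A))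
  constructor
  · obtain ⟨y, hy⟩ : ∃ y, y = ⌊(m : ℝ) / Real.log m ^ A⌋₊ := ⟨_, rfl⟩
    have hyle : (y : ℝ) ≤ m / Real.log m ^ A := by rw [hy]; exact Nat.floor_le (by positivity)
    have hylt : (m : ℝ) / Real.log m ^ A < y + 1 := by rw [hy]; exact Nat.lt_floor_add_one _
    have h1 : 1 ≤ (m : ℝ) / Real.log m ^ (A + 1) := by
      rw [le_div_iff₀ (by positivity), one_mul]
      exact hLp
    have h2 : (m : ℝ) / Real.log m ^ A = m / Real.log m ^ (A + 1) * Real.log m := by
      rw [pow_succ]
      field_simp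
    have h3 : (m : ℝ) / Real.log m ^ (A + 1) ≤ y := by nlinarith
    have hy0 : 0 < y := by
      have : (0 : ℝ) < y := by linarith
      exact_mod_cast this
    have hym : y ≤ m := by
      have : (y : ℝ) ≤ m := hyle.trans (div_le_self hm0.le (one_le_pow₀ hL1))
      exact_mod_cast this
    have h4 := hw 0 y hy0 hym (by push_cast; linarith)
    have hyr : (0 : ℝ) < y := by exact_mod_cast hy0
    have h5 : 0 < sing m * ((y : ℝ) - ((0 : ℕ) : ℝ)) / Real.log m ^ 2 := by
      push_cast
      rw [sub_zero]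
      positivity
    have h6 : (0 : ℝ) < (Pool.Agent.W93.PG.cnt m 0 y : ℝ) := by
      have h8 := (abs_le.1 h4).1
      have h9 : min ε (1 / 2) ≤ 1 / 2 := min_le_right _ _
      nlinarith
    have h7 : 0 < Pool.Agent.W93.PG.cnt m 0 y := by exact_mod_cast h6
    unfold Pool.Agent.W93.PG.cnt at h7
    rw [card_pos] at h7
    obtain ⟨p, hp⟩ := h7
    rw [mem_filter, mem_Ioc] at hp
    refine ⟨p, hp.2.1, hp.2.2, le_trans ?_ hyle⟩
    exact_mod_cast hp.1.2
  · intro y₁ y₂ k1 k2 k3
    refine (hw y₁ y₂ k1 k2 (hle.trans k3)).trans ?_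
    apply mul_le_mul_of_nonneg_right (min_le_left _ _)
    have : (0 : ℝ) ≤ (y₂ : ℝ) - y₁ := by
      have : (y₁ : ℝ) ≤ y₂ := by exact_mod_cast k1.le
      linarith
    positivity

/-- For all `ε, ρ > 0`, `A`, `B` and `T` and all sufficiently large real `x`: for EVERY integer
`1 ≤ q ≤ x ^ (2 / 3 - ρ)` and every integer `a` with `gcd(a, q) ≤ (log x)^T`, all but at most
`x / (q (log x)^B)` of the even integers `0 < m ≤ x`, `m ≡ a (mod q)`, have the property `Holds ε A m`. -/
theorem result (ε ρ : ℝ) (hε : 0 < ε) (hρ : 0 < ρ) (A B T : ℕ) :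
    ∃ x₀ : ℝ, ∀ x : ℝ, x₀ ≤ x → ∀ q : ℕ, 1 ≤ q → (q : ℝ) ≤ x ^ (2 / 3 - ρ) →
      ∀ a : ℤ, (Int.gcd a q : ℝ) ≤ Real.log x ^ T →
        (exceptional ε A x q a).Finite ∧ ((exceptional ε A x q a).ncard : ℝ) ≤ x / (q * Real.log x ^ B) :=
  Pool.Agent.R460.GH.class_asymp (Holds ε A) (min ε (1 / 2)) (lt_min hε (by norm_num)) (A + 1)
    (holds_of ε hε A) ρ hρ B T

end Pool.Agent.Results.MP_bae66e_nt.AsymptoticEveryModulus
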