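import Mathlib
import Pool.Agent.R291.RMW.X4
import Pool.Agent.R291.RMW.V2

set_option autoImplicit false

/-!
# The least summand in Goldbach representations, in random models of the primes

Granville, van de Lune and te Riele conjecture that every even `m ≤ n` has a representation
`m = p + q` with primes `p ≤ C (log n)² log log n`, `q`.  For EVERY sequential random model of the
primes (the integers are decided one after the other, only integers coprime to a fixed `Q` can be
chosen, and the conditional probability of choosing `n + 1` (coprime to `Q`) given the past is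
asymptotic to `(Q / φ(Q)) / log n`; no independence is assumed; for `Q = 1` Cramér's model and the
Hawkins random sieve are examples) we prove this with the exact constant: almost surely the least
summand of `N` is at most `(1 + ε) (2 / σ(N)) (log N)² log log N` for all large `N` which are not
excluded by the sieve, and this is sharp in every residue class mod `Q`.
-/

open MeasureTheory Filter
open scoped Topology

namespace Pool.Agent.Results.MP_bae66e_nt.LeastSummandRandomModels

/-- the number of the residues `a` mod `Q` such that `a` and `N - a` (which is congruent to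
`N + (Q - 1) a`) are coprime to `Q`, multiplied by `Q / φ(Q)²` -/
noncomputable def sigma (Q N : ℕ) : ℝ :=
  Q * ((Finset.range Q).filter (fun a => Nat.Coprime a Q ∧ Nat.Coprime (N + (Q - 1) * a) Q)).card /
    (Nat.totient Q : ℝ) ^ 2

open Pool.Agent.R291.RMW in
lemma phi_cmp {a b C : ℝ} (hab : a < b) (hC : 0 ≤ C) : ∀ᶠ L : ℝ in atTop,
    a * ((L + C) ^ 2 * Real.log (L + C)) + 1 ≤ b * (L ^ 2 * Real.log L) := by
  have h0 : Tendsto (fun L : ℝ => C / L) atTop (𝓝 0) := tendsto_id.const_div_atTop C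
  have h1 : Tendsto (fun L : ℝ => 1 + C / L) atTop (𝓝 1) := by
    have := h0.const_add 1
    rwa [add_zero] at this
  have h2 : Tendsto (fun L : ℝ => Real.log (1 + C / L) / Real.log L) atTop (𝓝 0) := by
    have h3 := (Real.continuousAt_log one_ne_zero).tendsto.comp h1
    exact h3.div_atTop Real.tendsto_log_atTop
  have h3 : Tendsto (fun L : ℝ => L ^ 2 * Real.log L) atTop atTop :=
    (tendsto_pow_atTop two_ne_zero).atTop_mul_atTop₀ Real.tendsto_log_atTop
  have h4 : Tendsto (fun L : ℝ => (1 : ℝ) / (L ^ 2 * Real.log L)) atTop (𝓝 0) := h3.const_div_atTop 1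
  have h5 := (((h1.pow 2).mul (h2.const_add 1)).const_mul a).add h4
  rw [add_zero, one_pow, add_zero, one_mul, mul_one] at h5
  filter_upwards [h5.eventually (eventually_lt_nhds hab), h3.eventually_gt_atTop 0, eventually_gt_atTop 1] with L g1 g2 g3
  have hL : 0 < L := by linarith
  have hlL : 0 < Real.log L := Real.log_pos g3
  have e1 : Real.log (L + C) = Real.log L + Real.log (1 + C / L) := by
    rw [← Real.log_mul hL.ne' (by positivity)]
    congr 1
    field_simp
  have e2 : a * ((L + C) ^ 2 * Real.log (L + C)) + 1 =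
      (a * ((1 + C / L) ^ 2 * (1 + Real.log (1 + C / L) / Real.log L)) + 1 / (L ^ 2 * Real.log L)) * (L ^ 2 * Real.log L) := by
    rw [e1]
    field_simp
  rw [e2]
  exact mul_le_mul_of_nonneg_right g1.le g2.le

end Pool.Agent.Results.MP_bae66e_nt.LeastSummandRandomModels

open Pool.Agent.Results.MP_bae66e_nt.LeastSummandRandomModels Pool.Agent.R528.RM Pool.Agent.R291.RMW

/-- Let `A n` be the event that `n` belongs to a random set `S` adapted to a filtration `ℱ`, let
`Q ≥ 1`, let no integer which is not coprime to `Q` be chosen, and let the conditional probability of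
`A (n + 1)` given `ℱ n`, times `log n`, tend to `Q / φ(Q)` along the `n` with `n + 1` coprime to `Q`,
almost surely.
(1) Almost surely, for every `ε > 0` and all large `N` with `σ(N) > 0` there is `p` in `S` with
`0 < p < N`, `p ≤ (1 + ε) (2 / σ(N)) (log N)² log log N` such that `N - p` is in `S`.
(2) Almost surely, for every `r` with `σ(r) > 0`, every `ε > 0` and all large `x` there is `N ≤ x`
congruent to `r` mod `Q` such that no `N - p` with `p` in `S` and
`0 < p ≤ (1 - ε) (2 / σ(r)) (log x)² log log x` is in `S`, and these `p` are smaller than `N`. -/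
theorem Pool.Agent.Results.MP_bae66e_nt.LeastSummandRandomModels.result
    {Ω : Type} [mΩ : MeasurableSpace Ω] (μ : Measure Ω) [IsProbabilityMeasure μ]
    (ℱ : Filtration ℕ mΩ) (A : ℕ → Set Ω) (hA : ∀ n, MeasurableSet[ℱ n] (A n))
    (Q : ℕ) (hQ : 0 < Q) (hcop : ∀ n, ¬ Nat.Coprime n Q → A n = ∅)
    (hd : ∀ᵐ ω ∂μ, Tendsto (fun n : ℕ =>
      (μ[(A (n + 1)).indicator (fun _ => (1 : ℝ)) | ℱ n]) ω * Real.log n)
      (atTop ⊓ 𝓟 {n : ℕ | Nat.Coprime (n + 1) Q}) (𝓝 ((Q : ℝ) / Nat.totient Q))) :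
    (∀ᵐ ω ∂μ, ∀ ε : ℝ, 0 < ε → ∀ᶠ N : ℕ in atTop, 0 < sigma Q N → ∃ p : ℕ, 0 < p ∧ p < N ∧
      (p : ℝ) ≤ (1 + ε) * (2 / sigma Q N) * (Real.log N ^ 2 * Real.log (Real.log N)) ∧
      ω ∈ A p ∧ ω ∈ A (N - p)) ∧
    (∀ᵐ ω ∂μ, ∀ r : ℕ, 0 < sigma Q r → ∀ ε : ℝ, 0 < ε → ∀ᶠ x : ℕ in atTop, ∃ N : ℕ, N ≤ x ∧
      N % Q = r % Q ∧ ∀ p : ℕ, 0 < p →
        (p : ℝ) ≤ (1 - ε) * (2 / sigma Q r) * (Real.log x ^ 2 * Real.log (Real.log x)) →
        p < N ∧ (ω ∈ A p → ω ∉ A (N - p))) := by
  have hprof := Pool.Agent.R528.RM.dens_profile (μ := μ) (ℱ := ℱ) hA Q hQ hcop hd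
  have hsg : ∀ N, sigma Q N = sgN Q N := fun _ => rfl
  have hlltop : Tendsto (fun N : ℕ => Real.log (Real.log (N : ℝ))) atTop atTop := Real.tendsto_log_atTop.comp tendsto_log
  constructor
  · have h1 : ∀ᵐ ω ∂μ, ∀ r n : ℕ, 0 < sgN Q r → ∀ᶠ N : ℕ in atTop, N % Q = r % Q → ∃ p : ℕ, 0 < p ∧ p < N ∧
        (p : ℝ) ≤ (1 + 1 / ((n : ℝ) + 1)) * (2 / sgN Q r) * (Real.log N ^ 2 * Real.log (Real.log N)) ∧ ω ∈ A p ∧ ω ∈ A (N - p) := by
      refine ae_all_iff.2 fun r => ae_all_iff.2 fun n => ?_
      by_cases hr : 0 < sgN Q r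
      · filter_upwards [gold_upper (μ := μ) (ℱ := ℱ) hA hQ hcop hprof hr (ε := 1 / ((n : ℝ) + 1)) (by positivity)] with ω hω _
        exact hω
      · exact Eventually.of_forall fun ω h => absurd h hr
    filter_upwards [h1] with ω hω ε hε
    obtain ⟨n, hn⟩ := exists_nat_gt (1 / ε)
    have hnε : 1 / ((n : ℝ) + 1) ≤ ε := by
      rw [div_lt_iff₀ hε] at hn
      rw [div_le_iff₀ (by positivity)]
      nlinarith
    have h2 : ∀ᶠ N : ℕ in atTop, ∀ r ∈ Finset.range Q, 0 < sgN Q r → N % Q = r % Q → ∃ p : ℕ, 0 < p ∧ p < N ∧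
        (p : ℝ) ≤ (1 + 1 / ((n : ℝ) + 1)) * (2 / sgN Q r) * (Real.log N ^ 2 * Real.log (Real.log N)) ∧ ω ∈ A p ∧ ω ∈ A (N - p) := by
      rw [Filter.eventually_all_finset]
      intro r _
      by_cases hr : 0 < sgN Q r
      · filter_upwards [hω r n hr] with N hN _
        exact hN
      · exact Eventually.of_forall fun N h => absurd h hr
    filter_upwards [h2, hlltop.eventually_gt_atTop 0] with N g1 g2 hN
    have hmod : sgN Q (N % Q) = sgN Q N := sgN_mod (Nat.mod_mod _ _)
    rw [hsg] at hN ⊢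
    obtain ⟨p, p1, p2, p3, p4⟩ := g1 (N % Q) (Finset.mem_range.2 (Nat.mod_lt _ hQ)) (by rw [hmod]; exact hN) (Nat.mod_mod _ _).symm
    refine ⟨p, p1, p2, ?_, p4⟩
    rw [hmod] at p3
    refine p3.trans ?_
    apply mul_le_mul_of_nonneg_right _ (by positivity)
    exact mul_le_mul_of_nonneg_right (by linarith) (by positivity)
  · have h1 : ∀ᵐ ω ∂μ, ∀ r n : ℕ, 0 < sgN Q r → ∀ᶠ k : ℕ in atTop, ∃ N : ℕ, N % Q = r % Q ∧ 2 ^ k < N ∧ N ≤ r + 3 * Q * 2 ^ k ∧
        ω ∈ NH A N (yL ((1 - 1 / ((n : ℝ) + 2)) * (2 / sgN Q r)) (2 ^ k)) := by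
      refine ae_all_iff.2 fun r => ae_all_iff.2 fun n => ?_
      by_cases hr : 0 < sgN Q r
      · filter_upwards [gold_lower (μ := μ) (ℱ := ℱ) hA hQ hcop hprof hr (ε := 1 / ((n : ℝ) + 2)) (by positivity) (by
          rw [div_lt_one (by positivity)]
          have : (0 : ℝ) ≤ n := Nat.cast_nonneg n
          linarith)] with ω hω _
        exact hω
      · exact Eventually.of_forall fun ω h => absurd h hr
    filter_upwards [h1] with ω hω r hr ε hε
    rw [hsg] at hr ⊢
    set σ := sgN Q r with hσ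
    obtain ⟨n, hn⟩ := exists_nat_gt (1 / ε)
    have hnε : 1 / ((n : ℝ) + 2) < ε := by
      rw [div_lt_iff₀ hε] at hn
      rw [div_lt_iff₀ (by positivity)]
      nlinarith
    have hn1 : 1 / ((n : ℝ) + 2) < 1 := by
      rw [div_lt_one (by positivity)]
      have : (0 : ℝ) ≤ n := Nat.cast_nonneg n
      linarith
    set κ : ℝ := (1 - 1 / ((n : ℝ) + 2)) * (2 / σ) with hκ
    have hκ0 : 0 < κ := mul_pos (by linarith) (by positivity)
    have hab : (1 - ε) * (2 / σ) < κ := mul_lt_mul_of_pos_right (by linarith) (by positivity)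
    set C : ℝ := Real.log (8 * Q) with hC
    have hQ1 : (1 : ℝ) ≤ Q := by exact_mod_cast hQ
    have hC0 : 0 ≤ C := Real.log_nonneg (by linarith)
    -- the scale
    have hkt : Tendsto (fun x : ℕ => Nat.log 2 (x / (4 * Q))) atTop atTop := by
      refine tendsto_atTop.2 fun K => ?_
      filter_upwards [eventually_ge_atTop (4 * Q * 2 ^ K)] with x hx
      have h2 : 2 ^ K ≤ x / (4 * Q) := (Nat.le_div_iff_mul_le (by omega)).2 (by rw [mul_comm]; exact hx)
      have h3 := Nat.log_mono_right (b := 2) h2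
      rwa [Nat.log_pow (by norm_num)] at h3
    have hXt : Tendsto (fun k : ℕ => 2 ^ k) atTop atTop := tendsto_pow_atTop_atTop_of_one_lt (by norm_num : 1 < 2)
    have hLt : Tendsto (fun k : ℕ => Real.log ((2 ^ k : ℕ) : ℝ)) atTop atTop := tendsto_log.comp hXt
    have hsmall : ∀ᶠ k : ℕ in atTop, yL κ (2 ^ k) ≤ 2 ^ k := by
      filter_upwards [hXt.eventually (yL_small hκ0 (show (0 : ℝ) < 1 by norm_num))] with k hk
      rw [Real.rpow_one] at hk
      exact_mod_cast hk
    filter_upwards [hkt.eventually (hω r n hr), hkt.eventually (hLt.eventually (phi_cmp hab hC0)),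
      hkt.eventually (hXt.eventually_ge_atTop r), hkt.eventually hsmall, eventually_ge_atTop (4 * Q),
      hlltop.eventually_gt_atTop 0, tendsto_log.eventually_gt_atTop 0, hkt.eventually (hLt.eventually_gt_atTop 1)] with
      x ⟨N, N1, N2, N3, N4⟩ g2 g3 g4 g5 g6 g7 g8
    set k := Nat.log 2 (x / (4 * Q)) with hk
    have hx0 : x / (4 * Q) ≠ 0 := by
      have := (Nat.one_le_div_iff (show 0 < 4 * Q by omega)).2 g5
      omega
    have hk1 : 2 ^ k ≤ x / (4 * Q) := Nat.pow_log_le_self 2 hx0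
    have hk2 : x / (4 * Q) < 2 ^ (k + 1) := Nat.lt_pow_succ_log_self (by norm_num) _
    have hk1' : 2 ^ k * (4 * Q) ≤ x := (Nat.le_div_iff_mul_le (by omega)).1 hk1
    have hk2' : x < 2 ^ (k + 1) * (4 * Q) := (Nat.div_lt_iff_lt_mul (by omega)).1 hk2
    refine ⟨N, ?_, N1, fun p hp hpx => ?_⟩
    · have h2 : 2 ^ k * 1 ≤ 2 ^ k * Q := Nat.mul_le_mul_left _ hQ
      calc N ≤ r + 3 * Q * 2 ^ k := N3
        _ ≤ 2 ^ k * Q + 3 * Q * 2 ^ k := Nat.add_le_add_right (by omega) _
        _ = 2 ^ k * (4 * Q) := by ring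
        _ ≤ x := hk1'
    · -- the comparison of the lengths
      have hx8 : (x : ℝ) ≤ 8 * Q * ((2 ^ k : ℕ) : ℝ) := by
        have h2 : (x : ℝ) ≤ ((2 ^ (k + 1) * (4 * Q) : ℕ) : ℝ) := by exact_mod_cast hk2'.le
        push_cast at h2 ⊢
        rw [pow_succ] at h2
        linarith
      have hxp : (0 : ℝ) < x := by
        have : 0 < x := by omega
        exact_mod_cast this
      have hlx : Real.log (x : ℝ) ≤ Real.log ((2 ^ k : ℕ) : ℝ) + C := by
        have h2 := Real.log_le_log hxp hx8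
        rw [Real.log_mul (by positivity) (by positivity)] at h2
        linarith
      set L := Real.log ((2 ^ k : ℕ) : ℝ) with hL
      have h3 : (1 - ε) * (2 / σ) * (Real.log x ^ 2 * Real.log (Real.log x)) + 1 ≤ κ * (L ^ 2 * Real.log L) := by
        rcases le_or_gt ((1 - ε) * (2 / σ)) 0 with hneg | hpos
        · have h4 : (1 - ε) * (2 / σ) * (Real.log x ^ 2 * Real.log (Real.log x)) ≤ 0 :=
            mul_nonpos_of_nonpos_of_nonneg hneg (by positivity)
          have h5 : 0 < p := hp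
          have h6 : (1 : ℝ) ≤ p := by exact_mod_cast h5
          linarith
        · refine le_trans ?_ g2
          have h4 : Real.log (x : ℝ) ^ 2 ≤ (L + C) ^ 2 := pow_le_pow_left₀ g7.le hlx 2
          have h5 : Real.log (Real.log (x : ℝ)) ≤ Real.log (L + C) := Real.log_le_log g7 hlx
          have h6 : Real.log (x : ℝ) ^ 2 * Real.log (Real.log x) ≤ (L + C) ^ 2 * Real.log (L + C) :=
            mul_le_mul h4 h5 g6.le (by positivity)
          have := mul_le_mul_of_nonneg_left h6 hpos.le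
          linarith
      have hpy : p ≤ yL κ (2 ^ k) := by
        apply Nat.le_floor
        have h4 : (p : ℝ) ≤ κ * (L ^ 2 * Real.log L) := by linarith
        exact h4
      refine ⟨by omega, fun h => N4 p hp hpy h⟩
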